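import Pool.Agent.L0h14.PF.Defs

/-!
# Künneth projectors modulo `N`
-/

universe u v w u' v'

open CategoryTheory

set_option autoImplicit false

namespace Pool.Agent.L0h14.PC

open Pool.Agent.L0h14.CK Pool.Agent.L0h14.PF

variable {𝒱 : Type u} [Category.{v} 𝒱] [Preadditive 𝒱] [Linear ℚ 𝒱] {F : Type w} [Field F]

/-- For every `i` the projector of `H^*(X)` to the sum of the `H^j(X)`, `j` congruent to `i` modulo `N`, is algebraic. For `N = 0`
this is the conjecture `C`: all Künneth projectors are algebraic. For `N = 2` this is the conjecture `C⁺`: the projector to the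
cohomology of even degree is algebraic (the other one is its complement). -/
def KunnethMod (T : CorrTheory 𝒱 F) (N : ℕ) (X : 𝒱) : Prop :=
  ∀ i : ℤ, ∃ g ∈ T.gr X X 0, (∀ j, j ≡ i [ZMOD N] → ∀ x ∈ T.deg X j, T.H.map g x = x) ∧
    ∀ j, ¬ j ≡ i [ZMOD N] → ∀ x ∈ T.deg X j, T.H.map g x = 0

/-- The correspondences of degree zero from `X` to itself which are sums of correspondences `X → Z → X`, where the
projectors modulo `N` of `Z` are algebraic. -/
def throughMod (T : CorrTheory 𝒱 F) (N : ℕ) (X : 𝒱) : AddSubgroup (X ⟶ X) :=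
  AddSubgroup.closure {f | ∃ (Z : 𝒱) (i : ℤ), KunnethMod T N Z ∧ ∃ a ∈ T.gr X Z i, ∃ b ∈ T.gr Z X (-i), a ≫ b = f}

variable {T : CorrTheory 𝒱 F} {m : ℕ} {𝒲 : Type u'} [Category.{v'} 𝒲] [Preadditive 𝒲]

/-- The projectors modulo `N` of the generic fibre `A` are algebraic over the function field: for every `i` there is a
correspondence `π` of `A` of degree zero which acts on the `j`-th cohomology of the geometric generic fibre as the identity if `j`
is congruent to `i`, and as zero otherwise. -/
def GenericKunnethMod (Φ : Family T m 𝒲) (N : ℕ) (A : 𝒲) : Prop :=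
  ∀ i : ℤ, ∃ π : A ⟶ A, (∀ j, j ≡ i [ZMOD N] → (Φ.HG j).map (𝟙 A - π) = 0) ∧
    ∀ j, ¬ j ≡ i [ZMOD N] → (Φ.HG j).map π = 0

/-- The cohomology classes which are supported over proper closed subsets of `S` come from varieties whose projectors modulo `N` are
algebraic: a sum of correspondences which factor through such varieties acts on them as the identity. -/
def SupportedMod (Φ : Family T m 𝒲) (N : ℕ) (A : 𝒲) : Prop :=
  ∃ e ∈ throughMod T N (Φ.model A), ∀ k : ℤ, ∀ x ∈ T.deg (Φ.model A) k, x ∈ Φ.fib A → T.H.map e x = x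

/-- `X` is a direct factor of `Y` by correspondences of degree zero. This is so if `Y → X` is dominant and `dim X = dim Y`. -/
def Factor (T : CorrTheory 𝒱 F) (X Y : 𝒱) : Prop := ∃ u ∈ T.gr X Y 0, ∃ v ∈ T.gr Y X 0, u ≫ v = 𝟙 X

end Pool.Agent.L0h14.PC
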