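import Pool.Agent.L0h14.PC.Defs

/-!
# Künneth projectors from the generic fibre
-/

universe u v w u' v'

open CategoryTheory

set_option autoImplicit false

namespace Pool.Agent.L0h14.PC

open Pool.Agent.L0h14.CK Pool.Agent.L0h14.PF

variable {𝒱 : Type u} [Category.{v} 𝒱] [Preadditive 𝒱] [Linear ℚ 𝒱] {F : Type w} [Field F]
variable {T : CorrTheory 𝒱 F} {N : ℕ}

theorem sub_apply {X Y : 𝒱} (f g : X ⟶ Y) (x : T.H.obj X) : T.H.map (f - g) x = T.H.map f x - T.H.map g x := by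
  have := T.additive
  rw [T.H.map_sub]
  rfl

theorem add_apply {X Y : 𝒱} (f g : X ⟶ Y) (x : T.H.obj X) : T.H.map (f + g) x = T.H.map f x + T.H.map g x := by
  have := T.additive
  rw [T.H.map_add]
  rfl

theorem neg_apply {X Y : 𝒱} (f : X ⟶ Y) (x : T.H.obj X) : T.H.map (-f) x = - T.H.map f x := by
  have := T.additive
  rw [T.H.map_neg]
  rfl

theorem id_apply {X : 𝒱} (x : T.H.obj X) : T.H.map (𝟙 X) x = x := by
  rw [T.H.map_id]
  rfl

theorem through_gr {X : 𝒱} {f : X ⟶ X} (hf : f ∈ throughMod T N X) : f ∈ T.gr X X 0 := by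
  refine AddSubgroup.closure_induction ?_ (T.gr X X 0).zero_mem (fun _ _ _ _ h h' => (T.gr X X 0).add_mem h h')
    (fun _ _ h => (T.gr X X 0).neg_mem h) hf
  rintro _ ⟨Z, i, -, a, ha, b, hb, rfl⟩
  have := T.comp_gr ha hb
  rwa [add_neg_cancel] at this

theorem through_left {X : 𝒱} {f h : X ⟶ X} (hh : h ∈ T.gr X X 0) (hf : f ∈ throughMod T N X) :
    h ≫ f ∈ throughMod T N X := by
  refine AddSubgroup.closure_induction (p := fun f _ => h ≫ f ∈ throughMod T N X) ?_ ?_ ?_ ?_ hf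
  · rintro _ ⟨Z, i, hZ, a, ha, b, hb, rfl⟩
    refine AddSubgroup.subset_closure ⟨Z, i, hZ, h ≫ a, ?_, b, hb, Category.assoc _ _ _⟩
    have := T.comp_gr hh ha
    rwa [zero_add] at this
  · rw [Limits.comp_zero]
    exact (throughMod T N X).zero_mem
  · intro f g _ _ h1 h2
    rw [Preadditive.comp_add]
    exact (throughMod T N X).add_mem h1 h2
  · intro f _ h1
    rw [Preadditive.comp_neg]
    exact (throughMod T N X).neg_mem h1

theorem through_right {X : 𝒱} {f h : X ⟶ X} (hh : h ∈ T.gr X X 0) (hf : f ∈ throughMod T N X) :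
    f ≫ h ∈ throughMod T N X := by
  refine AddSubgroup.closure_induction (p := fun f _ => f ≫ h ∈ throughMod T N X) ?_ ?_ ?_ ?_ hf
  · rintro _ ⟨Z, i, hZ, a, ha, b, hb, rfl⟩
    refine AddSubgroup.subset_closure ⟨Z, i, hZ, a, ha, b ≫ h, ?_, (Category.assoc _ _ _).symm⟩
    have := T.comp_gr hb hh
    rwa [add_zero] at this
  · rw [Limits.zero_comp]
    exact (throughMod T N X).zero_mem
  · intro f g _ _ h1 h2
    rw [Preadditive.add_comp]
    exact (throughMod T N X).add_mem h1 h2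
  · intro f _ h1
    rw [Preadditive.neg_comp]
    exact (throughMod T N X).neg_mem h1

theorem through_tp {X : 𝒱} {f : X ⟶ X} (hf : f ∈ throughMod T N X) : T.tp f ∈ throughMod T N X := by
  refine AddSubgroup.closure_induction (p := fun f _ => T.tp f ∈ throughMod T N X) ?_ ?_ ?_ ?_ hf
  · rintro _ ⟨Z, i, hZ, a, ha, b, hb, rfl⟩
    refine AddSubgroup.subset_closure ⟨Z, -i + T.dim Z - T.dim X, hZ, T.tp b, T.tp_gr hb, T.tp a, ?_, (T.tp_comp a b).symm⟩
    have := T.tp_gr ha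
    have e : -(-i + T.dim Z - T.dim X) = i + T.dim X - T.dim Z := by ring
    rwa [e]
  · rw [map_zero]
    exact (throughMod T N X).zero_mem
  · intro f g _ _ h1 h2
    rw [map_add]
    exact (throughMod T N X).add_mem h1 h2
  · intro f _ h1
    rw [map_neg]
    exact (throughMod T N X).neg_mem h1

/-- The components of correspondences which factor through varieties with algebraic projectors are algebraic. -/
theorem through_component {X : 𝒱} {f : X ⟶ X} (hf : f ∈ throughMod T N X) (i : ℤ) :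
    ∃ g ∈ T.gr X X 0, (∀ j, j ≡ i [ZMOD N] → ∀ x ∈ T.deg X j, T.H.map g x = T.H.map f x) ∧
      ∀ j, ¬ j ≡ i [ZMOD N] → ∀ x ∈ T.deg X j, T.H.map g x = 0 := by
  have hadd := T.additive
  refine AddSubgroup.closure_induction (p := fun f _ => ∃ g ∈ T.gr X X 0,
    (∀ j, j ≡ i [ZMOD N] → ∀ x ∈ T.deg X j, T.H.map g x = T.H.map f x) ∧
      ∀ j, ¬ j ≡ i [ZMOD N] → ∀ x ∈ T.deg X j, T.H.map g x = 0) ?_ ?_ ?_ ?_ hf
  · rintro _ ⟨Z, l, hZ, a, ha, b, hb, rfl⟩
    obtain ⟨p, hp, hp1, hp2⟩ := hZ (i + 2 * l)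
    refine ⟨a ≫ p ≫ b, ?_, fun j hj x hx => ?_, fun j hj x hx => ?_⟩
    · have := T.comp_gr ha (T.comp_gr hp hb)
      rwa [zero_add, add_neg_cancel] at this
    · rw [map_comp_apply, map_comp_apply, map_comp_apply, hp1 (j + 2 * l) (hj.add_right _) _ (T.deg_map ha x hx)]
    · rw [map_comp_apply, map_comp_apply, hp2 (j + 2 * l) (fun h => hj (Int.ModEq.add_right_cancel' _ h)) _
        (T.deg_map ha x hx), map_zero]
  · exact ⟨0, (T.gr X X 0).zero_mem, fun _ _ _ _ => rfl, fun _ _ _ _ => by rw [T.H.map_zero]; rfl⟩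
  · rintro f f' - - ⟨g, hg, h1, h2⟩ ⟨g', hg', h1', h2'⟩
    refine ⟨g + g', (T.gr X X 0).add_mem hg hg', fun j hj x hx => ?_, fun j hj x hx => ?_⟩
    · rw [add_apply, add_apply, h1 j hj x hx, h1' j hj x hx]
    · rw [add_apply, h2 j hj x hx, h2' j hj x hx, add_zero]
  · rintro f - ⟨g, hg, h1, h2⟩
    refine ⟨-g, (T.gr X X 0).neg_mem hg, fun j hj x hx => ?_, fun j hj x hx => ?_⟩
    · rw [neg_apply, neg_apply, h1 j hj x hx]
    · rw [neg_apply, h2 j hj x hx, neg_zero]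

variable {m : ℕ} {𝒲 : Type u'} [Category.{v'} 𝒲] [Preadditive 𝒲]

/-- The action of relative correspondences. -/
theorem act_eq (Φ : Family T m 𝒲) (A : 𝒲) {e : Φ.model A ⟶ Φ.model A} (he : e ∈ throughMod T N (Φ.model A))
    (hact : ∀ k : ℤ, ∀ x ∈ T.deg (Φ.model A) k, x ∈ Φ.fib A → T.H.map e x = x) {f : A ⟶ A}
    {g : Φ.model A ⟶ Φ.model A} (hfg : (f, g) ∈ Φ.rel A) (k : ℤ) (hf : (Φ.HG (k - m)).map f = 0) :
    ∀ x ∈ T.deg (Φ.model A) k, T.H.map g x = T.H.map (T.tp e ≫ g + (𝟙 _ - T.tp e) ≫ g ≫ e) x := by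
  intro x hx
  have hg := Φ.degree hfg
  have hd := tp_gr0 (through_gr he)
  have hx' : x - T.H.map (T.tp e) x ∈ T.deg (Φ.model A) k := (T.deg _ k).sub_mem hx (deg_map0 hd hx)
  have h2 : T.H.map g (x - T.H.map (T.tp e) x) ∈ Φ.fib A := by
    refine Φ.leray hfg k hf _ hx' fun y hy hyf => ?_
    rw [map_sub, LinearMap.sub_apply, T.pair_tp, T.tp_tp, hact _ y hy hyf, sub_self]
  rw [add_apply, map_comp_apply, map_comp_apply, map_comp_apply, sub_apply, id_apply,
    hact k _ (deg_map0 hg hx') h2, ← map_add, add_sub_cancel]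

/-- Künneth projectors from the generic fibre. -/
theorem kunneth_of_generic (Φ : Family T m 𝒲) (A : 𝒲) (hA : GenericKunnethMod Φ N A) (hs : SupportedMod Φ N A) :
    KunnethMod T N (Φ.model A) := by
  intro i
  obtain ⟨e, he, hact⟩ := hs
  obtain ⟨π, hπ1, hπ2⟩ := hA (i - m)
  obtain ⟨p, hp⟩ := Φ.lift π
  have hc : (𝟙 A - π, 𝟙 (Φ.model A) - p) ∈ Φ.rel A := (Φ.rel A).sub_mem (Φ.one A) hp
  have hp0 := Φ.degree hp
  have hc0 := Φ.degree hc
  have hd0 := tp_gr0 (through_gr he)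
  have hin : ∀ g : Φ.model A ⟶ Φ.model A, g ∈ T.gr _ _ 0 →
      T.tp e ≫ g + (𝟙 _ - T.tp e) ≫ g ≫ e ∈ throughMod T N (Φ.model A) := fun g hg =>
    (throughMod T N _).add_mem (through_right hg (through_tp he))
      (through_left ((T.gr _ _ 0).sub_mem (T.one_gr _) hd0) (through_left hg he))
  obtain ⟨s, hs0, hs1, hs2⟩ := through_component (hin _ hc0) i
  obtain ⟨t, ht0, ht1, ht2⟩ := through_component (hin _ hp0) i
  refine ⟨p + s - ((T.tp e ≫ p + (𝟙 _ - T.tp e) ≫ p ≫ e) - t), (T.gr _ _ 0).sub_mem ((T.gr _ _ 0).add_mem hp0 hs0)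
    ((T.gr _ _ 0).sub_mem (through_gr (hin _ hp0)) ht0), fun j hj x hx => ?_, fun j hj x hx => ?_⟩
  · have h1 := act_eq Φ A he hact hc j (hπ1 _ (hj.sub_right _)) x hx
    rw [sub_apply, sub_apply _ t, add_apply, ht1 j hj x hx, sub_self, sub_zero, hs1 j hj x hx, ← h1, sub_apply, id_apply]
    abel
  · have h1 := act_eq Φ A he hact hp j (hπ2 _ (fun h => hj (by
      have := h.add_right (m : ℤ)
      rwa [sub_add_cancel, sub_add_cancel] at this))) x hx
    rw [sub_apply, sub_apply _ t, add_apply, ht2 j hj x hx, sub_zero, hs2 j hj x hx, add_zero, ← h1, sub_self]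

/-- Direct factors. -/
theorem kunneth_of_factor {X Y : 𝒱} (h : Factor T X Y) (hY : KunnethMod T N Y) : KunnethMod T N X := by
  obtain ⟨u, hu, v, hv, huv⟩ := h
  intro i
  obtain ⟨p, hp, h1, h2⟩ := hY i
  refine ⟨u ≫ p ≫ v, ?_, fun j hj x hx => ?_, fun j hj x hx => ?_⟩
  · have := T.comp_gr hu (T.comp_gr hp hv)
    simpa using this
  all_goals
    have hx' : T.H.map u x ∈ T.deg Y j := by
      have := T.deg_map hu x hx
      rwa [mul_zero, add_zero] at this
  · rw [map_comp_apply, map_comp_apply, h1 j hj _ hx', ← map_comp_apply, huv, id_apply]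
  · rw [map_comp_apply, map_comp_apply, h2 j hj _ hx', map_zero]

end Pool.Agent.L0h14.PC
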